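import Pool.Agent.H24.AB.PrimesTwo

/-!
For almost all primes `p` the number of primes in `(p, p + H]` has the right order of magnitude at
all scales `H`, from a constant times `log p` up to `p`, simultaneously; the lower bound holds with
a constant `c < 1` for all but a proportion `c` of the primes.
-/

namespace Pool.Agent.Results.MP_31d0eb_nt.AlmostAllPrimes

/-- For `0 < c`, `0 < η`, `c + η < 1` there is a `K` such that for all large `X`, all but
`(c + η) X / log X` of the primes `p ∈ (X, 2 X]` satisfy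
`c H / log p ≤ π(p + H) - π(p) ≤ K H / log p` for all real `H` with `K log p ≤ H ≤ p`, and
`π(p + H) - π(p) ≤ (4 + η) H / log (p H)` whenever also `H ≥ (log p) ^ K`. -/
theorem result (c η : ℝ) (hc : 0 < c) (hη : 0 < η) (hcη : c + η < 1) :
    ∃ K : ℝ, 0 < K ∧ ∃ X0 : ℕ, ∀ X : ℕ, X0 ≤ X →
    ({p : ℕ | X < p ∧ p ≤ 2 * X ∧ p.Prime ∧ ¬ ∀ H : ℝ, K * Real.log p ≤ H → H ≤ p →
      c * (H / Real.log p) ≤ (((Finset.Ioc p ⌊(p : ℝ) + H⌋₊).filter Nat.Prime).card : ℝ) ∧
      (((Finset.Ioc p ⌊(p : ℝ) + H⌋₊).filter Nat.Prime).card : ℝ) ≤ K * (H / Real.log p) ∧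
      ((Real.log p) ^ K ≤ H → (((Finset.Ioc p ⌊(p : ℝ) + H⌋₊).filter Nat.Prime).card : ℝ) ≤
        (4 + η) * (H / Real.log (p * H)))}.ncard : ℝ) ≤ (c + η) * (X / Real.log X) :=
  Pool.Agent.H24.AB.primes_two c η hc hη hcη

end Pool.Agent.Results.MP_31d0eb_nt.AlmostAllPrimes
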