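import Pool.Agent.H49.VK.Fin

/-!
The Brun-Titchmarsh theorem for short intervals with an improved constant, for every large `x` and
every length `exp (C (log x) ^ (2/3) (log log x) ^ (1/3)) ≤ H ≤ x ^ (1/2)`:
`π(x + H) - π(x) ≤ (2 - c (log H / log x) ^ 2) H / log H` with absolute constants `c > 0` and `C`.
-/

namespace Pool.Agent.Results.MP_31d0eb_nt.EveryInterval

/-- There are `c > 0`, `C` and `x₀` such that for all real `x ≥ x₀` and all real `H` with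
`exp (C (log x) ^ (2/3) (log log x) ^ (1/3)) ≤ H ≤ x ^ (1/2)` the number of primes in `(x, x + H]` is
at most `(2 - c (log H / log x) ^ 2) H / log H`. -/
theorem result : ∃ c : ℝ, 0 < c ∧ ∃ C : ℝ, ∃ x₀ : ℝ, ∀ x : ℝ, x₀ ≤ x → ∀ H : ℝ,
    Real.exp (C * (Real.log x) ^ (2 / 3 : ℝ) * (Real.log (Real.log x)) ^ (1 / 3 : ℝ)) ≤ H →
    H ≤ x ^ (1 / 2 : ℝ) →
    (((Finset.Ioc ⌊x⌋₊ ⌊x + H⌋₊).filter Nat.Prime).card : ℝ) ≤
      (2 - c * (Real.log H / Real.log x) ^ 2) * (H / Real.log H) :=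
  Pool.Agent.H49.VK.main

end Pool.Agent.Results.MP_31d0eb_nt.EveryInterval
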